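import Pool.Agent.H16.TorusGeo

set_option autoImplicit false

open Pool.Agent.H16.TorusGeo

namespace Pool.Agent.Results.MP_53eea8_gt.TorusUnbounded

/-- There is a geodesically complete smooth indefinite (Lorentzian) metric `g` on the 3-torus
`ℝ³/ℤ³` such that for almost every tangent vector `(x, w)` the geodesic with this initial vector has
unbounded velocity. -/
theorem result : ∃ g : (Fin 3 → ℝ) → Matrix (Fin 3) (Fin 3) ℝ,
    IsMetric g ∧ Indefinite g ∧ Complete g ∧
    ∀ᵐ q : (Fin 3 → ℝ) × (Fin 3 → ℝ), ∀ γ v : ℝ → (Fin 3 → ℝ), IsGeodesic g γ v →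
      γ 0 = q.1 → v 0 = q.2 → ∀ R : ℝ, ∃ t : ℝ, R < ‖v t‖ := by
  refine ⟨g, g_metric, g_indef, complete, ?_⟩
  filter_upwards [ae_good] with q hq γ v h h1 h2 R
  apply unbounded h _ _ R
  · rw [h1, h2]; exact hq.1
  · rw [h1, h2]; exact hq.2

end Pool.Agent.Results.MP_53eea8_gt.TorusUnbounded
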